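import Pool.Agent.J4H58.OC.Stm4
import Pool.Agent.R476.OR.G

/-! Project OC (helper58), job GEB: the body. -/

set_option autoImplicit false

namespace Pool.Agent.J4H42.OC

open MeasureTheory Set Filter Topology
open Pool.Agent.W695.KH (Eu EU EV VV Sm)
open Pool.Agent.R476.OR (CV NV SV KV)
open Pool.Agent.R476.OR.G (cont_of_convex SV_cont KV_convex KV_closed level_null)
open Pool.Agent.J4H58.OC

lemma coord_cont {n : ℕ} (i : Fin n) : Continuous fun x : Eu (Fin n) => x i := by fun_prop

lemma ordE_closed {n : ℕ} (R : Fin n → Fin n → Prop) : IsClosed (ordE R) := by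
  have h : ordE R = ⋂ i, ⋂ j, ⋂ (_ : R i j), {x : Eu (Fin n) | x i ≤ x j} := by
    ext x
    simp only [ordE, mem_ofPred_eq, mem_iInter]
  rw [h]
  exact isClosed_iInter fun i => isClosed_iInter fun j => isClosed_iInter fun _ =>
    isClosed_le (coord_cont i) (coord_cont j)

lemma ordE_convex {n : ℕ} (R : Fin n → Fin n → Prop) : Convex ℝ (ordE R) := by
  intro x hx y hy a b ha hb _ i j hij
  have h1 := mul_le_mul_of_nonneg_left (hx i j hij) ha
  have h2 := mul_le_mul_of_nonneg_left (hy i j hij) hb
  simpa using add_le_add h1 h2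

/-- a strict linear extension -/
lemma exists_ext {n : ℕ} (R : Fin n → Fin n → Prop) (h1 : ∀ a b, R a b → R b a → a = b)
    (h2 : ∀ a b c, R a b → R b c → R a c) :
    ∃ h : Fin n → ℝ, ∀ i j, R i j → i ≠ j → h i < h j := by
  classical
  refine ⟨fun i => ((Finset.univ.filter fun k => R k i ∨ k = i).card : ℝ), ?_⟩
  intro i j hij hne
  have hlt : (Finset.univ.filter fun k => R k i ∨ k = i) ⊂
      (Finset.univ.filter fun k => R k j ∨ k = j) := by
    rw [Finset.ssubset_iff_subset_ne]
    refine ⟨?_, ?_⟩
    · intro k hk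
      rw [Finset.mem_filter] at hk ⊢
      refine ⟨hk.1, Or.inl ?_⟩
      rcases hk.2 with h | h
      · exact h2 _ _ _ h hij
      · rw [h]
        exact hij
    · intro he
      have hj : j ∈ (Finset.univ.filter fun k => R k j ∨ k = j) := by
        rw [Finset.mem_filter]
        exact ⟨Finset.mem_univ _, Or.inr rfl⟩
      rw [← he, Finset.mem_filter] at hj
      rcases hj.2 with h | h
      · exact hne (h1 _ _ hij h)
      · exact hne h.symm
  have h := Finset.card_lt_card hlt
  show (((Finset.univ.filter fun k => R k i ∨ k = i).card : ℕ) : ℝ) <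
    (((Finset.univ.filter fun k => R k j ∨ k = j).card : ℕ) : ℝ)
  exact_mod_cast h

theorem t_GEB : S_GEB := by
  intro n V E R hn hV hE hbdd ha ht
  have hVc := cont_of_convex hV
  have hc : Continuous (SV fun _ : Fin n => V) := SV_cont fun _ => hVc
  refine ⟨?_, (KV_convex (fun _ => hV) E).inter (ordE_convex R), ?_⟩
  · apply Metric.isCompact_of_isClosed_isBounded
    · exact (KV_closed (fun _ => hVc) E).inter (ordE_closed R)
    · exact hbdd.subset inter_subset_left
  · obtain ⟨h, hh⟩ := exists_ext R ha ht
    -- the open set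
    have hopen : IsOpen ({x : Eu (Fin n) | SV (fun _ : Fin n => V) x < E} ∩
        ⋂ i, ⋂ j, {x : Eu (Fin n) | R i j → i ≠ j → x i < x j}) := by
      refine (isOpen_lt hc continuous_const).inter ?_
      refine isOpen_iInter_of_finite fun i => isOpen_iInter_of_finite fun j => ?_
      by_cases h1 : R i j ∧ i ≠ j
      · have : {x : Eu (Fin n) | R i j → i ≠ j → x i < x j} = {x | x i < x j} := by
          ext x
          simp only [mem_ofPred_eq]
          exact ⟨fun hx => hx h1.1 h1.2, fun hx _ _ => hx⟩
        rw [this]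
        exact isOpen_lt (coord_cont i) (coord_cont j)
      · have : {x : Eu (Fin n) | R i j → i ≠ j → x i < x j} = univ := by
          ext x
          simp only [mem_ofPred_eq, mem_univ, iff_true]
          intro h2 h3
          exact absurd ⟨h2, h3⟩ h1
        rw [this]
        exact isOpen_univ
    have hsub : ({x : Eu (Fin n) | SV (fun _ : Fin n => V) x < E} ∩
        ⋂ i, ⋂ j, {x : Eu (Fin n) | R i j → i ≠ j → x i < x j}) ⊆
        KV (fun _ : Fin n => V) E ∩ ordE R := by
      rintro x ⟨hx1, hx2⟩
      refine ⟨show SV (fun _ : Fin n => V) x ≤ E from le_of_lt hx1, ?_⟩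
      intro i j hij
      rcases eq_or_ne i j with h1 | h1
      · rw [h1]
      · have := mem_iInter.1 (mem_iInter.1 hx2 i) j
        exact (this hij h1).le
    have hp : Continuous fun ε : ℝ => (WithLp.toLp 2 fun i => ε * h i : Eu (Fin n)) := by
      fun_prop
    have h0 : SV (fun _ : Fin n => V) (WithLp.toLp 2 fun i => (0 : ℝ) * h i : Eu (Fin n)) < E := by
      unfold SV
      simpa using hE
    have hev : ∀ᶠ ε in 𝓝 (0 : ℝ),
        SV (fun _ : Fin n => V) (WithLp.toLp 2 fun i => ε * h i : Eu (Fin n)) < E :=
      (hc.comp hp).continuousAt.eventually_lt continuousAt_const h0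
    obtain ⟨r, hr, hball⟩ := Metric.eventually_nhds_iff.1 hev
    refine ⟨WithLp.toLp 2 fun i => (r / 2) * h i, ?_⟩
    refine interior_maximal hsub hopen ⟨?_, ?_⟩
    · apply hball
      rw [dist_zero_right, Real.norm_eq_abs, abs_of_pos (by linarith)]
      linarith
    · rw [mem_iInter]
      intro i
      rw [mem_iInter]
      intro j hij hne
      show (r / 2) * h i < (r / 2) * h j
      exact mul_lt_mul_of_pos_left (hh i j hij hne) (by linarith)

end Pool.Agent.J4H42.OC
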