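import Pool.Agent.J4H58.OC.Stm4

/-! Project OC (helper58), job LMB: limits of bodies. -/

set_option autoImplicit false

namespace Pool.Agent.J4H42.OC

open MeasureTheory Set Filter Topology
open scoped ENNReal InnerProductSpace
open Pool.Agent.W695.KH (Eu EU EV VV Sm)
open Pool.Agent.J4H58.OC

lemma quot_bound {I e m δ B : ℝ} (hm : 0 < m) (hδ0 : 0 ≤ δ) (hδ : δ ≤ m / 2) (hB : 0 ≤ B)
    (hI : |I| ≤ B * m) (he : |e| ≤ B * δ) :
    |(I - e) / (m - δ) - I / m| ≤ 4 * B * δ / m := by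
  have h1 : 0 < m - δ := by linarith
  have h2 : (I - e) / (m - δ) - I / m = (I * δ - e * m) / (m * (m - δ)) := by
    field_simp
    ring
  rw [h2, abs_div, abs_of_pos (mul_pos hm h1), div_le_div_iff₀ (mul_pos hm h1) hm]
  have h3 : |I * δ - e * m| ≤ 2 * B * δ * m := by
    calc |I * δ - e * m| ≤ |I * δ| + |e * m| := abs_sub _ _
      _ = |I| * δ + |e| * m := by rw [abs_mul, abs_mul, abs_of_nonneg hδ0, abs_of_pos hm]
      _ ≤ B * m * δ + B * δ * m := by gcongr
      _ = 2 * B * δ * m := by ring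
  have h4 : 2 * B * δ * m * m ≤ 4 * B * δ * (m * (m - δ)) := by
    have h5 : 0 ≤ B * δ * m := by positivity
    nlinarith
  calc |I * δ - e * m| * m ≤ 2 * B * δ * m * m := by gcongr
    _ ≤ _ := h4

variable {n : ℕ} {D : Set (Eu (Fin n))} {Dj : ℕ → Set (Eu (Fin n))}

lemma int_on (hb : Bornology.IsBounded D) (hD : MeasurableSet D) {v : Eu (Fin n) → ℝ} {B : ℝ}
    (hv : Continuous v) (hB : ∀ x ∈ D, |v x| ≤ B) : IntegrableOn v D := by
  have hfin : volume D < ⊤ := hb.measure_lt_top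
  refine Measure.integrableOn_of_bounded (M := B) hfin.ne hv.aestronglyMeasurable ?_
  rw [ae_restrict_iff' hD]
  exact Eventually.of_forall fun x hx => by
    rw [Real.norm_eq_abs]
    exact hB x hx

lemma int_le (hb : Bornology.IsBounded D) {v : Eu (Fin n) → ℝ} {B : ℝ}
    {S : Set (Eu (Fin n))} (hS : S ⊆ D) (hB : ∀ x ∈ D, |v x| ≤ B) :
    |∫ x in S, v x| ≤ B * (volume S).toReal := by
  have hfin : volume S < ⊤ := (hb.subset hS).measure_lt_top
  have := norm_setIntegral_le_of_norm_le_const (μ := volume) (f := v) (C := B) hfin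
    (fun x hx => by
      rw [Real.norm_eq_abs]
      exact hB x (hS hx))
  rw [Real.norm_eq_abs] at this
  exact this

lemma ev_conv (hb : Bornology.IsBounded D) (hD : MeasurableSet D) (hpos : 0 < volume D)
    (hDj : ∀ j, MeasurableSet (Dj j) ∧ Dj j ⊆ D)
    (hlim : Tendsto (fun j => volume (D \ Dj j)) atTop (𝓝 0)) {B ε : ℝ} (hB : 0 ≤ B)
    (hε : 0 < ε) :
    ∀ᶠ j in atTop, ∀ v : Eu (Fin n) → ℝ, Continuous v → (∀ x ∈ D, |v x| ≤ B) →
      |EV (Dj j) v - EV D v| ≤ ε := by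
  have hfin : volume D < ⊤ := hb.measure_lt_top
  obtain ⟨m, hm⟩ : ∃ m, m = (volume D).toReal := ⟨_, rfl⟩
  have hm0 : 0 < m := by
    rw [hm]
    exact ENNReal.toReal_pos hpos.ne' hfin.ne
  have hr : Tendsto (fun j => (volume (D \ Dj j)).toReal) atTop (𝓝 0) := by
    have := (ENNReal.tendsto_toReal (a := 0) (by simp)).comp hlim
    rw [ENNReal.toReal_zero] at this
    exact this
  have h1 : ∀ᶠ j in atTop, (volume (D \ Dj j)).toReal < m / 2 :=
    hr.eventually_lt_const (by linarith)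
  have h2 : ∀ᶠ j in atTop, (volume (D \ Dj j)).toReal < ε * m / (4 * B + 1) :=
    hr.eventually_lt_const (by positivity)
  filter_upwards [h1, h2] with j h1 h2 v hv hvB
  obtain ⟨δ, hδ⟩ : ∃ δ, δ = (volume (D \ Dj j)).toReal := ⟨_, rfl⟩
  rw [← hδ] at h1 h2
  have hδ0 : 0 ≤ δ := by
    rw [hδ]
    exact ENNReal.toReal_nonneg
  have hmj : (volume (Dj j)).toReal = m - δ := by
    have h3 : volume (D \ Dj j) + volume (Dj j) = volume D := by
      have h4 := measure_sdiff_add_inter (μ := volume) D (hDj j).1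
      rwa [inter_eq_self_of_subset_right (hDj j).2] at h4
    have h5 : volume (D \ Dj j) < ⊤ := (measure_mono sdiff_subset).trans_lt hfin
    have h6 : volume (Dj j) < ⊤ := (measure_mono (hDj j).2).trans_lt hfin
    rw [hm, hδ, ← h3, ENNReal.toReal_add h5.ne h6.ne]
    ring
  have hI := int_on hb hD hv hvB
  have hsplit : ∫ x in Dj j, v x = (∫ x in D, v x) - ∫ x in D \ Dj j, v x := by
    have h3 := setIntegral_sdiff (hDj j).1 hI (hDj j).2
    rw [h3]
    ring
  have hI1 := int_le hb (subset_refl D) hvB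
  have hI2 := int_le hb (sdiff_subset (s := D) (t := Dj j)) hvB
  rw [← hm] at hI1
  rw [← hδ] at hI2
  unfold EV
  rw [hmj, hsplit, ← hm]
  refine (quot_bound hm0 hδ0 h1.le hB hI1 hI2).trans ?_
  rw [lt_div_iff₀ (by positivity)] at h2
  rw [div_le_iff₀ hm0]
  nlinarith

lemma ev_le (hb : Bornology.IsBounded D) (hpos : 0 < volume D) {v : Eu (Fin n) → ℝ} {B : ℝ}
    (hB : ∀ x ∈ D, |v x| ≤ B) : |EV D v| ≤ B := by
  have hfin : volume D < ⊤ := hb.measure_lt_top
  have hm0 : 0 < (volume D).toReal := ENNReal.toReal_pos hpos.ne' hfin.ne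
  unfold EV
  rw [abs_div, abs_of_pos hm0, div_le_iff₀ hm0]
  exact int_le hb (subset_refl D) hB

lemma vv_conv (hb : Bornology.IsBounded D) (hD : MeasurableSet D) (hpos : 0 < volume D)
    (hDj : ∀ j, MeasurableSet (Dj j) ∧ Dj j ⊆ D)
    (hlim : Tendsto (fun j => volume (D \ Dj j)) atTop (𝓝 0)) {B ε : ℝ} (hB : 0 ≤ B)
    (hε : 0 < ε) :
    ∀ᶠ j in atTop, ∀ v : Eu (Fin n) → ℝ, Continuous v → (∀ x ∈ D, |v x| ≤ B) →
      |VV (Dj j) v - VV D v| ≤ ε := by
  obtain ⟨η, hη⟩ : ∃ η, η = min 1 (ε / (2 + 2 * B)) := ⟨_, rfl⟩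
  have hη0 : 0 < η := by
    rw [hη]
    exact lt_min one_pos (by positivity)
  have hη1 : η ≤ 1 := by
    rw [hη]
    exact min_le_left _ _
  have hη2 : η * (2 + 2 * B) ≤ ε := by
    rw [← le_div_iff₀ (by positivity), hη]
    exact min_le_right _ _
  have hη2 := hη2
  filter_upwards [ev_conv hb hD hpos hDj hlim hB hη0,
    ev_conv hb hD hpos hDj hlim (sq_nonneg B) hη0] with j h1 h2 v hv hvB
  have h3 := h1 v hv hvB
  have h4 := h2 (fun x => v x ^ 2) (hv.pow 2) (fun x hx => by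
    rw [abs_pow]
    exact pow_le_pow_left₀ (abs_nonneg _) (hvB x hx) 2)
  have h5 := ev_le hb hpos hvB
  unfold VV
  obtain ⟨a, ha⟩ : ∃ a, a = EV (Dj j) v := ⟨_, rfl⟩
  obtain ⟨b, hb'⟩ : ∃ b, b = EV D v := ⟨_, rfl⟩
  rw [← ha, ← hb'] at h3 ⊢
  rw [← hb'] at h5
  have h6 : |a ^ 2 - b ^ 2| ≤ η * (1 + 2 * B) := by
    have h7 : a ^ 2 - b ^ 2 = (a - b) * ((a - b) + 2 * b) := by ring
    rw [h7, abs_mul]
    have h8 : |a - b + 2 * b| ≤ 1 + 2 * B := by
      calc |a - b + 2 * b| ≤ |a - b| + |2 * b| := abs_add_le _ _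
        _ ≤ 1 + 2 * B := by
          rw [abs_mul, abs_of_pos (by norm_num : (0 : ℝ) < 2)]
          linarith
    exact mul_le_mul h3 h8 (abs_nonneg _) hη0.le
  have h9 : EV (Dj j) (fun x => v x ^ 2) - a ^ 2 - (EV D (fun x => v x ^ 2) - b ^ 2) =
      (EV (Dj j) (fun x => v x ^ 2) - EV D (fun x => v x ^ 2)) - (a ^ 2 - b ^ 2) := by ring
  rw [h9]
  calc _ ≤ |EV (Dj j) (fun x => v x ^ 2) - EV D (fun x => v x ^ 2)| + |a ^ 2 - b ^ 2| := abs_sub _ _
    _ ≤ η + η * (1 + 2 * B) := add_le_add h4 h6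
    _ = η * (2 + 2 * B) := by ring
    _ ≤ ε := hη2

theorem t_LMB : S_LMB := by
  intro n c D Dj hc hb hD hpos hDj hlim hSt s hs hθ f L M hf hf2 hvar
  obtain ⟨r, hr⟩ := hb.subset_closedBall 0
  have hr' : ∀ x ∈ D, ‖x‖ ≤ max r 0 := by
    intro x hx
    have := hr hx
    rw [mem_closedBall_zero_iff] at this
    exact this.trans (le_max_left _ _)
  have hL0 : 0 ≤ L := (norm_nonneg _).trans (hf.grad 0)
  have hgc : Continuous fun x => ‖fderiv ℝ f x‖ := (hf.diff.continuous_fderiv (by norm_num)).norm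
  have key : ∀ ε : ℝ, 0 < ε →
      VV D f ≤ c * Real.sqrt (s + ε) * ((EV D fun x => ‖fderiv ℝ f x‖) + ε) + ε := by
    intro ε hε
    obtain ⟨ε', hε'⟩ : ∃ ε', ε' = min ε ((VV D f - 1 / 5) / 2) := ⟨_, rfl⟩
    have hε'0 : 0 < ε' := by
      rw [hε']
      exact lt_min hε (by linarith)
    have hε'1 : ε' ≤ ε := by
      rw [hε']
      exact min_le_left _ _
    have hε'2 : ε' ≤ (VV D f - 1 / 5) / 2 := by
      rw [hε']
      exact min_le_right _ _
    obtain ⟨j, h1, h2, h3, h4⟩ := (hSt.and ((vv_conv hb hD hpos hDj hlim (le_max_right r 0) hε'0).and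
      ((vv_conv hb hD hpos hDj hlim (by norm_num : (0 : ℝ) ≤ 1 / 2) hε'0).and
        (ev_conv hb hD hpos hDj hlim hL0 hε'0)))).exists
    have h5 : ∀ θ : Eu (Fin n), ‖θ‖ = 1 → VV (Dj j) (fun x => ⟪x, θ⟫_ℝ) ≤ s + ε := by
      intro θ hθ1
      have h6 := h2 (fun x => ⟪x, θ⟫_ℝ) (continuous_id.inner continuous_const) (fun x hx => by
        refine (abs_real_inner_le_norm x θ).trans ?_
        rw [hθ1, mul_one]
        exact hr' x hx)
      have h7 := hθ θ hθ1
      have h8 := (abs_le.1 h6).2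
      linarith
    have h6 := (abs_le.1 (h3 f hf.diff.continuous (fun x _ => hf2 x)))
    have h7 := (abs_le.1 (h4 _ hgc (fun x _ => by
      rw [abs_of_nonneg (norm_nonneg _)]
      exact hf.grad x)))
    have h8 := h1 (s + ε) (by linarith) h5 f L M hf hf2 (by linarith [h6.1])
    have h9 : c * Real.sqrt (s + ε) * (EV (Dj j) fun x => ‖fderiv ℝ f x‖) ≤
        c * Real.sqrt (s + ε) * ((EV D fun x => ‖fderiv ℝ f x‖) + ε) :=
      mul_le_mul_of_nonneg_left (by linarith [h7.2]) (by positivity)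
    linarith [h6.1]
  have hcont : Continuous fun ε : ℝ =>
      c * Real.sqrt (s + ε) * ((EV D fun x => ‖fderiv ℝ f x‖) + ε) + ε := by fun_prop
  have hlim0 := (hcont.tendsto 0).mono_left (nhdsWithin_le_nhds (s := Ioi (0 : ℝ)))
  have := ge_of_tendsto hlim0 (by
    filter_upwards [self_mem_nhdsWithin] with ε hε
    exact key ε hε)
  simpa using this

end Pool.Agent.J4H42.OC
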