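import Pool.Agent.J4H58.OC.Stm4
import Pool.Agent.R476.OR.G

/-! Project OC (helper58), job SMV: symmetric means. -/

set_option autoImplicit false

namespace Pool.Agent.J4H42.OC

open MeasureTheory Set Filter Topology
open Pool.Agent.W695.KH (Eu EU EV VV Sm)
open Pool.Agent.R476.OR (CV NV SV KV)
open Pool.Agent.R476.OR.G (cont_of_convex SV_cont KV_convex KV_closed level_null sm sm_cont sm_zero
  sm_deriv shift_le)
open Pool.Agent.J4H58.OC

/-- symmetric mean -/
noncomputable def sy (V : ℝ → ℝ) (h t : ℝ) : ℝ := (sm V h t + sm V (-h) t) / 2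

variable {V : ℝ → ℝ}

lemma sy_cv (hV : ConvexOn ℝ univ V) {h : ℝ} (hh : 0 < h) :
    CV (sy V h) (fun t => (V (t + h) - V (t - h)) / (2 * h)) where
  der := by
    intro t
    have hc := cont_of_convex hV
    have h1 := ((sm_deriv hc hh.ne' t).add (sm_deriv hc (neg_ne_zero.2 hh.ne') t)).div_const 2
    have e : (h⁻¹ * (V (t + h) - V t) + (-h)⁻¹ * (V (t + -h) - V t)) / 2 =
        (V (t + h) - V (t - h)) / (2 * h) := by
      rw [← sub_eq_add_neg]
      field_simp
      ring
    rw [e] at h1
    exact h1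
  mono := by
    intro s t hst
    have h1 := shift_le hV hh hst
    have h2 := shift_le hV hh (sub_le_sub_right hst h)
    rw [sub_add_cancel, sub_add_cancel] at h2
    show (V (s + h) - V (s - h)) / (2 * h) ≤ (V (t + h) - V (t - h)) / (2 * h)
    exact div_le_div_of_nonneg_right (by linarith) (by positivity)
  cont := by
    have := cont_of_convex hV
    fun_prop

lemma sy_even (he : ∀ t, V (-t) = V t) (h t : ℝ) : sy V h (-t) = sy V h t := by
  have h1 : ∀ k : ℝ, sm V k (-t) = sm V (-k) t := by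
    intro k
    unfold sm
    refine intervalIntegral.integral_congr fun u _ => ?_
    show V (-t + k * u) = V (t + -k * u)
    rw [← he]
    congr 1
    ring
  unfold sy
  rw [h1, h1, neg_neg, add_comm]

lemma le_mid (hV : ConvexOn ℝ univ V) (t s : ℝ) : V t ≤ (V (t + s) + V (t - s)) / 2 := by
  have h := hV.2 (mem_univ (t + s)) (mem_univ (t - s)) (by norm_num : (0 : ℝ) ≤ 1 / 2)
    (by norm_num : (0 : ℝ) ≤ 1 / 2) (by norm_num)
  have e : (1 / 2 : ℝ) • (t + s) + (1 / 2 : ℝ) • (t - s) = t := by
    simp only [smul_eq_mul]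
    ring
  rw [e] at h
  simp only [smul_eq_mul] at h
  linarith

lemma sy_ge (hV : ConvexOn ℝ univ V) (h t : ℝ) : V t ≤ sy V h t := by
  have hc := cont_of_convex hV
  have i1 : IntervalIntegrable (fun u => V (t + h * u)) volume 0 1 :=
    Continuous.intervalIntegrable (by fun_prop) _ _
  have i2 : IntervalIntegrable (fun u => V (t + -h * u)) volume 0 1 :=
    Continuous.intervalIntegrable (by fun_prop) _ _
  have e : sy V h t = ∫ u in (0 : ℝ)..1, (V (t + h * u) + V (t + -h * u)) / 2 := by
    rw [intervalIntegral.integral_div, intervalIntegral.integral_add i1 i2]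
    rfl
  rw [e]
  have h0 : V t = ∫ u in (0 : ℝ)..1, V t := by simp
  rw [h0]
  refine intervalIntegral.integral_mono_on zero_le_one intervalIntegrable_const
    ((i1.add i2).div_const 2) fun u _ => ?_
  have h1 := le_mid hV t (h * u)
  have e1 : t - h * u = t + -h * u := by ring
  rw [e1] at h1
  exact h1

lemma sy_lim (hV : ConvexOn ℝ univ V) (t : ℝ) {h : ℕ → ℝ} (hh : Tendsto h atTop (𝓝 0)) :
    Tendsto (fun j => sy V (h j) t) atTop (𝓝 (V t)) := by
  have hc := cont_of_convex hV
  have h1 := ((sm_cont hc t).tendsto 0).comp hh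
  have hneg : Tendsto (fun j => -h j) atTop (𝓝 0) := by
    have := hh.neg
    rwa [neg_zero] at this
  have h2 := ((sm_cont hc t).tendsto 0).comp hneg
  rw [sm_zero] at h1 h2
  have h3 := (h1.add h2).div_const 2
  have e : (V t + V t) / 2 = V t := by ring
  rw [e] at h3
  exact h3

/-- an even convex function which is not constant is coercive -/
lemma coercive (hV : ConvexOn ℝ univ V) (he : ∀ t, V (-t) = V t) (hn : ∃ t, V t ≠ V 0) :
    (∀ t, V 0 ≤ V t) ∧ ∃ a k : ℝ, 0 < k ∧ ∀ t, k * (|t| - a) ≤ V t - V 0 := by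
  have hmin : ∀ t, V 0 ≤ V t := by
    intro t
    have h := le_mid hV 0 t
    rw [zero_add, zero_sub, he] at h
    linarith
  refine ⟨hmin, ?_⟩
  obtain ⟨t₀, ht₀⟩ := hn
  have habs : ∀ t, V |t| = V t := by
    intro t
    rcases abs_choice t with h | h
    · rw [h]
    · rw [h, he]
  have ha : 0 < |t₀| := abs_pos.2 fun h => ht₀ (by rw [h])
  have hVa : V 0 < V |t₀| := by
    rw [habs]
    exact lt_of_le_of_ne (hmin t₀) (Ne.symm ht₀)
  refine ⟨|t₀|, (V |t₀| - V 0) / |t₀|, div_pos (by linarith) ha, fun t => ?_⟩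
  rcases le_or_gt |t| |t₀| with h | h
  · have h1 : (V |t₀| - V 0) / |t₀| * (|t| - |t₀|) ≤ 0 :=
      mul_nonpos_of_nonneg_of_nonpos (div_nonneg (by linarith) ha.le) (by linarith)
    have := hmin t
    linarith
  · have ht : 0 < |t| := ha.trans h
    have hp1 : 0 ≤ 1 - |t₀| / |t| := by
      rw [sub_nonneg, div_le_one ht]
      exact h.le
    have hp2 : 0 ≤ |t₀| / |t| := by positivity
    have h1 := hV.2 (mem_univ (0 : ℝ)) (mem_univ |t|) hp1 hp2 (by ring)
    have e : (1 - |t₀| / |t|) • (0 : ℝ) + (|t₀| / |t|) • |t| = |t₀| := by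
      simp only [smul_eq_mul, mul_zero, zero_add]
      field_simp
    rw [e] at h1
    simp only [smul_eq_mul] at h1
    rw [habs t] at h1
    have h2 : V |t₀| - V 0 ≤ |t₀| / |t| * (V t - V 0) := by linarith
    have h3 : (V |t₀| - V 0) * |t| ≤ |t₀| * (V t - V 0) := by
      have h4 := mul_le_mul_of_nonneg_right h2 ht.le
      have e2 : |t₀| / |t| * (V t - V 0) * |t| = |t₀| * (V t - V 0) := by
        field_simp
      rw [e2] at h4
      exact h4
    have h5 : (V |t₀| - V 0) / |t₀| * (|t| - |t₀|) =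
        ((V |t₀| - V 0) * |t| - (V |t₀| - V 0) * |t₀|) / |t₀| := by
      field_simp
    rw [h5, div_le_iff₀ ha]
    have h6 : 0 ≤ (V |t₀| - V 0) * |t₀| := mul_nonneg (by linarith) ha.le
    linarith

lemma bounded_KV (hV : ConvexOn ℝ univ V) (he : ∀ t, V (-t) = V t) (hn : ∃ t, V t ≠ V 0) (n : ℕ)
    (E : ℝ) : Bornology.IsBounded (KV (fun _ : Fin n => V) E) := by
  obtain ⟨hmin, a, k, hk, hco⟩ := coercive hV he hn
  obtain ⟨r, hr⟩ : ∃ r, r = max 0 (a + (E - n * V 0) / k) := ⟨_, rfl⟩
  rw [isBounded_iff_forall_norm_le]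
  refine ⟨Real.sqrt (n * r ^ 2), fun x hx => ?_⟩
  have hx' : ∑ i, V (x i) ≤ E := hx
  have hr0 : 0 ≤ r := by
    rw [hr]
    exact le_max_left _ _
  have hi : ∀ i, |x i| ≤ r := by
    intro i
    have h1 : (V (x i) - V 0) ≤ ∑ j, (V (x j) - V 0) :=
      Finset.single_le_sum (f := fun j => V (x j) - V 0)
        (fun j _ => sub_nonneg.2 (hmin _)) (Finset.mem_univ i)
    rw [Finset.sum_sub_distrib, Finset.sum_const, Finset.card_univ, Fintype.card_fin,
      nsmul_eq_mul] at h1
    have h2 := hco (x i)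
    have h3 : k * (|x i| - a) ≤ E - n * V 0 := by linarith
    have h4 : |x i| - a ≤ (E - n * V 0) / k := by
      rw [le_div_iff₀ hk]
      linarith
    rw [hr]
    exact le_trans (by linarith) (le_max_right _ _)
  apply Real.le_sqrt_of_sq_le
  rw [EuclideanSpace.norm_sq_eq]
  calc ∑ i, ‖x i‖ ^ 2 ≤ ∑ _i : Fin n, r ^ 2 := by
        refine Finset.sum_le_sum fun i _ => ?_
        rw [Real.norm_eq_abs]
        exact pow_le_pow_left₀ (abs_nonneg _) (hi i) 2
    _ = n * r ^ 2 := by
        rw [Finset.sum_const, Finset.card_univ, Fintype.card_fin, nsmul_eq_mul]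

theorem t_SMV : S_SMV := by
  intro n V E hn hV he hne hE
  have hb := bounded_KV hV he hne n E
  have hVc := cont_of_convex hV
  obtain ⟨ε, hεd⟩ : ∃ ε : ℕ → ℝ, ε = fun j : ℕ => 1 / ((j : ℝ) + 1) := ⟨_, rfl⟩
  have hε0 : ∀ j, 0 < ε j := fun j => by
    rw [hεd]
    show 0 < 1 / ((j : ℝ) + 1)
    positivity
  have hεt : Tendsto ε atTop (𝓝 0) := by
    rw [hεd]
    exact tendsto_one_div_add_atTop_nhds_zero_nat
  have hcv := fun j => sy_cv hV (hε0 j)
  have hjc : ∀ j, Continuous (sy V (ε j)) := fun j =>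
    continuous_iff_continuousAt.2 fun t => ((hcv j).der t).continuousAt
  have hsub : ∀ j, KV (fun _ : Fin n => sy V (ε j)) E ⊆ KV (fun _ : Fin n => V) E := by
    intro j x hx
    have hx' : ∑ i, sy V (ε j) (x i) ≤ E := hx
    show ∑ i, V (x i) ≤ E
    exact (Finset.sum_le_sum fun i _ => sy_ge hV (ε j) (x i)).trans hx'
  have hlim : ∀ x, Tendsto (fun j => SV (fun _ : Fin n => sy V (ε j)) x) atTop
      (𝓝 (SV (fun _ : Fin n => V) x)) := by
    intro x
    unfold SV
    exact tendsto_finsetSum _ fun i _ => sy_lim hV (x i) hεt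
  have h0 : SV (fun _ : Fin n => V) 0 < E := by
    unfold SV
    simpa using hE
  refine ⟨hb, fun j => sy V (ε j), fun j t => (V (t + ε j) - V (t - ε j)) / (2 * ε j),
    fun j => ⟨hcv j, sy_even he (ε j), hsub j⟩, ?_, ?_⟩
  · have hev : ∀ᶠ j in atTop, SV (fun _ : Fin n => sy V (ε j)) 0 < E :=
      (hlim 0).eventually_lt_const h0
    filter_upwards [hev] with j hj
    exact ⟨0, hj⟩
  · have hm : MeasurableSet (KV (fun _ : Fin n => V) E) :=
      (KV_closed (fun _ => hVc) E).measurableSet
    have hmj : ∀ j, MeasurableSet (KV (fun _ : Fin n => sy V (ε j)) E) := fun j =>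
      (KV_closed (fun _ => hjc j) E).measurableSet
    have key := tendsto_measure_of_ae_tendsto_indicator (μ := (volume : Measure (Eu (Fin n))))
      (A := ∅) (As := fun j => KV (fun _ : Fin n => V) E \ KV (fun _ : Fin n => sy V (ε j)) E)
      (B := KV (fun _ : Fin n => V) E) atTop MeasurableSet.empty
      (fun j => hm.diff (hmj j)) hm hb.measure_lt_top.ne
      (Eventually.of_forall fun j => sdiff_subset) ?_
    · rw [measure_empty] at key
      exact key
    · have hnull := level_null (V := fun _ : Fin n => V) (fun _ => hV) h0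
      have hae : ∀ᵐ x : Eu (Fin n), SV (fun _ : Fin n => V) x ≠ E := by
        rw [ae_iff]
        simpa using hnull
      filter_upwards [hae] with x hxE
      rcases lt_or_gt_of_ne hxE with hlt | hgt
      · filter_upwards [(hlim x).eventually_lt_const hlt] with j hj
        constructor
        · intro h
          exact absurd (show x ∈ KV (fun _ : Fin n => sy V (ε j)) E from hj.le) h.2
        · intro h
          exact absurd h (notMem_empty x)
      · refine Eventually.of_forall fun j => ?_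
        constructor
        · intro h
          exact absurd (show SV (fun _ : Fin n => V) x ≤ E from h.1) (not_le.2 hgt)
        · intro h
          exact absurd h (notMem_empty x)

end Pool.Agent.J4H42.OC
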